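import Mathlib
import Pool.Agent.Y854.GM.Win

/-!
# Windows: countable families and intersections

Two small additions to the covering lemma `Pool.Agent.Y854.GM.windows`: one exceptional set for a
countable family of sparse sets, and the dimension of the intersection of exceptional sets.
-/

set_option autoImplicit false

namespace Pool.Agent.X286.Win

open MeasureTheory Filter Topology

/-- the exponent of convergence of the sequence `v` is at most `τ` -/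
def ExpLe (v : ℕ → ℝ) (τ : ℝ) : Prop := ∀ t : ℝ, τ < t → Summable (fun n : ℕ => (v n) ^ (-t))

/-- counting hypothesis: the set `S` has at most `C X ^ (s + ε)` elements `t` with `h t ≤ X` -/
def Sparse {T : Type} (S : Set T) (h : T → ℝ) (s : ℝ) : Prop :=
  ∀ ε : ℝ, 0 < ε → ∃ C : ℝ, ∀ X : ℝ, 1 ≤ X →
    {t | t ∈ S ∧ h t ≤ X}.Finite ∧ ({t | t ∈ S ∧ h t ≤ X}.ncard : ℝ) ≤ C * X ^ (s + ε)

/-- one exceptional set for a countable family -/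
theorem family {T ι : Type} [Countable ι] (S : ι → Set T) (h : ι → T → ℝ) {s : ℝ} (hs : 0 ≤ s)
    (hS : ∀ i, Sparse (S i) (h i) s) {v : ℕ → ℝ} {τ θ : ℝ} (hv : ∀ n, 1 ≤ v n) (hτ : 0 ≤ τ)
    (hE : ExpLe v τ) (hθ : θ < 1) :
    ∃ E : Set ℝ, dimH E ≤ ENNReal.ofReal ((s + τ) / (1 - θ)) ∧ ∀ a : ℝ, 0 < a → a ∉ E →
      ∀ i, ∃ n₀ : ℕ, ∀ n : ℕ, n₀ ≤ n → ∀ t ∈ S i, (v n) ^ θ < |h i t - a * v n| := by
  choose E h1 h2 using fun i => Pool.Agent.Y854.GM.windows (S i) (h i) (θ := θ) hv hτ hE hs hθ (hS i)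
  refine ⟨⋃ i, E i, ?_, fun a ha haE i => h2 i a ha fun h => haE (Set.mem_iUnion.2 ⟨i, h⟩)⟩
  rw [dimH_iUnion]
  exact iSup_le h1

/-- the intersection of exceptional sets -/
theorem inter {E : ℕ → Set ℝ} {s : ℕ → ℝ} {τ θ : ℝ} (hs : Tendsto s atTop (𝓝 0))
    (hE : ∀ k, dimH (E k) ≤ ENNReal.ofReal ((s k + τ) / (1 - θ))) :
    dimH (⋂ k, E k) ≤ ENNReal.ofReal (τ / (1 - θ)) := by
  have h1 : ∀ k : ℕ, dimH (⋂ k, E k) ≤ ENNReal.ofReal ((s k + τ) / (1 - θ)) := fun k =>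
    (dimH_mono (Set.iInter_subset E k)).trans (hE k)
  have h3 : Tendsto (fun k : ℕ => ENNReal.ofReal ((s k + τ) / (1 - θ))) atTop
      (𝓝 (ENNReal.ofReal (τ / (1 - θ)))) := by
    apply ENNReal.tendsto_ofReal
    have h5 := (hs.add_const τ).div_const (1 - θ)
    simpa using h5
  exact ge_of_tendsto' h3 h1

/-- a sequence of sparse sets of exponents tending to zero: outside a small set of `a`, some member
of the sequence has no element in the windows -/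
theorem some_member {T ι : Type} [Countable ι] (S : ℕ → ι → Set T) (h : ι → T → ℝ) {s : ℕ → ℝ}
    (hs0 : ∀ k, 0 ≤ s k) (hs : Tendsto s atTop (𝓝 0)) (hS : ∀ k i, Sparse (S k i) (h i) (s k))
    {v : ℕ → ℝ} {τ θ : ℝ} (hv : ∀ n, 1 ≤ v n) (hτ : 0 ≤ τ) (hE : ExpLe v τ) (hθ : θ < 1) :
    ∃ E : Set ℝ, dimH E ≤ ENNReal.ofReal (τ / (1 - θ)) ∧ ∀ a : ℝ, 0 < a → a ∉ E → ∃ k, ∀ i,
      ∃ n₀ : ℕ, ∀ n : ℕ, n₀ ≤ n → ∀ t ∈ S k i, (v n) ^ θ < |h i t - a * v n| := by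
  choose E h1 h2 using fun k => family (S k) h (hs0 k) (hS k) hv hτ hE hθ
  refine ⟨⋂ k, E k, inter hs h1, fun a ha haE => ?_⟩
  rw [Set.mem_iInter] at haE
  push Not at haE
  obtain ⟨k, hk⟩ := haE
  exact ⟨k, h2 k a ha hk⟩

/-- adding a finite set -/
theorem sparse_of_sub {T : Type} {S S' F : Set T} {h : T → ℝ} {s : ℝ} (hs : 0 ≤ s)
    (hS : Sparse S' h s) (hF : F.Finite) (hsub : S ⊆ S' ∪ F) : Sparse S h s := by
  intro ε hε
  obtain ⟨C, hC⟩ := hS ε hε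
  refine ⟨|C| + F.ncard, fun X hX => ?_⟩
  obtain ⟨h1, h2⟩ := hC X hX
  have hsub' : {t | t ∈ S ∧ h t ≤ X} ⊆ {t | t ∈ S' ∧ h t ≤ X} ∪ F := by
    rintro t ⟨ht1, ht2⟩
    rcases hsub ht1 with h | h
    · exact Or.inl ⟨h, ht2⟩
    · exact Or.inr h
  have hfin := h1.union hF
  refine ⟨hfin.subset hsub', ?_⟩
  have h3 : (({t | t ∈ S ∧ h t ≤ X}.ncard : ℕ) : ℝ) ≤
      (({t | t ∈ S' ∧ h t ≤ X}.ncard : ℕ) : ℝ) + (F.ncard : ℝ) := by
    exact_mod_cast (Set.ncard_le_ncard hsub' hfin).trans (Set.ncard_union_le _ _)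
  have h4 : 1 ≤ X ^ (s + ε) := Real.one_le_rpow hX (by linarith)
  have h5 : C * X ^ (s + ε) ≤ |C| * X ^ (s + ε) :=
    mul_le_mul_of_nonneg_right (le_abs_self C) (by linarith)
  have h6 : (F.ncard : ℝ) ≤ F.ncard * X ^ (s + ε) := le_mul_of_one_le_right (by positivity) h4
  calc _ ≤ _ := h3
    _ ≤ |C| * X ^ (s + ε) + F.ncard * X ^ (s + ε) := by linarith
    _ = _ := by ring

/-- a bound with a smaller exponent, without an `ε` -/
theorem sparse_of_bound {T : Type} {S : Set T} {h : T → ℝ} {s e : ℝ} (he : e ≤ s)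
    {C : ℝ} (hC : ∀ X : ℝ, 1 ≤ X → {t | t ∈ S ∧ h t ≤ X}.Finite ∧
      ({t | t ∈ S ∧ h t ≤ X}.ncard : ℝ) ≤ C * X ^ e) : Sparse S h s := by
  intro ε hε
  refine ⟨|C|, fun X hX => ?_⟩
  obtain ⟨h1, h2⟩ := hC X hX
  refine ⟨h1, h2.trans ?_⟩
  calc C * X ^ e ≤ |C| * X ^ e := mul_le_mul_of_nonneg_right (le_abs_self C) (by positivity)
    _ ≤ _ := mul_le_mul_of_nonneg_left
      (Real.rpow_le_rpow_of_exponent_le hX (by linarith)) (abs_nonneg C)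

/-- counting by the absolute height `H`, with `h = H ^ d` -/
theorem sparse_of_rel {T : Type} {S : Set T} {h H : T → ℝ} {d s : ℝ} (hd : 0 < d)
    (hH : ∀ t ∈ S, 0 ≤ H t ∧ h t = H t ^ d)
    (hS : ∀ ε : ℝ, 0 < ε → ∃ C : ℝ, ∀ B : ℝ, 1 ≤ B →
      {t | t ∈ S ∧ H t ≤ B}.Finite ∧ ({t | t ∈ S ∧ H t ≤ B}.ncard : ℝ) ≤ C * B ^ (d * s + ε)) :
    Sparse S h s := by
  intro ε hε
  obtain ⟨C, hC⟩ := hS (d * ε) (by positivity)
  refine ⟨C, fun X hX => ?_⟩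
  have hX0 : 0 < X := by linarith
  have hset : {t | t ∈ S ∧ h t ≤ X} = {t | t ∈ S ∧ H t ≤ X ^ (1 / d)} := by
    ext t
    constructor
    · rintro ⟨h1, h2⟩
      obtain ⟨h3, h4⟩ := hH t h1
      refine ⟨h1, ?_⟩
      rw [h4] at h2
      rw [one_div]
      exact (Real.le_rpow_inv_iff_of_pos h3 hX0.le hd).2 h2
    · rintro ⟨h1, h2⟩
      obtain ⟨h3, h4⟩ := hH t h1
      refine ⟨h1, ?_⟩
      rw [h4]
      rw [one_div] at h2
      exact (Real.le_rpow_inv_iff_of_pos h3 hX0.le hd).1 h2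
  rw [hset]
  obtain ⟨h1, h2⟩ := hC (X ^ (1 / d)) (Real.one_le_rpow hX (by positivity))
  refine ⟨h1, h2.trans (le_of_eq ?_)⟩
  rw [← Real.rpow_mul hX0.le]
  congr 2
  field_simp

/-- one exceptional set for a countable family of sets in different types -/
theorem family₂ {ι : Type} [Countable ι] {T : ι → Type} (S : ∀ i, Set (T i)) (h : ∀ i, T i → ℝ)
    {s : ℝ} (hs : 0 ≤ s) (hS : ∀ i, Sparse (S i) (h i) s) {v : ℕ → ℝ} {τ θ : ℝ} (hv : ∀ n, 1 ≤ v n)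
    (hτ : 0 ≤ τ) (hE : ExpLe v τ) (hθ : θ < 1) :
    ∃ E : Set ℝ, dimH E ≤ ENNReal.ofReal ((s + τ) / (1 - θ)) ∧ ∀ a : ℝ, 0 < a → a ∉ E →
      ∀ i, ∃ n₀ : ℕ, ∀ n : ℕ, n₀ ≤ n → ∀ t ∈ S i, (v n) ^ θ < |h i t - a * v n| := by
  choose E h1 h2 using fun i => Pool.Agent.Y854.GM.windows (S i) (h i) (θ := θ) hv hτ hE hs hθ (hS i)
  refine ⟨⋃ i, E i, ?_, fun a ha haE i => h2 i a ha fun h => haE (Set.mem_iUnion.2 ⟨i, h⟩)⟩
  rw [dimH_iUnion]
  exact iSup_le h1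

/-- `some_member` for a countable family of sets in different types -/
theorem some_member₂ {ι : Type} [Countable ι] {T : ι → Type} (S : ℕ → ∀ i, Set (T i))
    (h : ∀ i, T i → ℝ) {s : ℕ → ℝ} (hs0 : ∀ k, 0 ≤ s k) (hs : Tendsto s atTop (𝓝 0))
    (hS : ∀ k i, Sparse (S k i) (h i) (s k)) {v : ℕ → ℝ} {τ θ : ℝ} (hv : ∀ n, 1 ≤ v n)
    (hτ : 0 ≤ τ) (hE : ExpLe v τ) (hθ : θ < 1) :
    ∃ E : Set ℝ, dimH E ≤ ENNReal.ofReal (τ / (1 - θ)) ∧ ∀ a : ℝ, 0 < a → a ∉ E → ∃ k, ∀ i,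
      ∃ n₀ : ℕ, ∀ n : ℕ, n₀ ≤ n → ∀ t ∈ S k i, (v n) ^ θ < |h i t - a * v n| := by
  choose E h1 h2 using fun k => family₂ (S k) h (hs0 k) (hS k) hv hτ hE hθ
  refine ⟨⋂ k, E k, inter hs h1, fun a ha haE => ?_⟩
  rw [Set.mem_iInter] at haE
  push Not at haE
  obtain ⟨k, hk⟩ := haE
  exact ⟨k, h2 k a ha hk⟩

/-- a larger exponent -/
theorem sparse_mono {T : Type} {S : Set T} {h : T → ℝ} {s s' : ℝ} (hs : s ≤ s')
    (hS : Sparse S h s) : Sparse S h s' := by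
  intro ε hε
  obtain ⟨C, hC⟩ := hS ε hε
  refine ⟨|C|, fun X hX => ?_⟩
  obtain ⟨h1, h2⟩ := hC X hX
  refine ⟨h1, h2.trans ?_⟩
  calc C * X ^ (s + ε) ≤ |C| * X ^ (s + ε) :=
        mul_le_mul_of_nonneg_right (le_abs_self C) (by positivity)
    _ ≤ _ := mul_le_mul_of_nonneg_left
      (Real.rpow_le_rpow_of_exponent_le hX (by linarith)) (abs_nonneg C)

/-- the empty set and all sets of elements of bounded `h` with finitely many elements are sparse -/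
theorem sparse_finite {T : Type} {S : Set T} {h : T → ℝ} {s : ℝ} (hs : 0 ≤ s) (hS : S.Finite) :
    Sparse S h s := by
  intro ε hε
  refine ⟨S.ncard, fun X hX => ?_⟩
  have h0 : {t | t ∈ S ∧ h t ≤ X} ⊆ S := fun t ht => ht.1
  refine ⟨hS.subset h0, ?_⟩
  have h1 : (({t | t ∈ S ∧ h t ≤ X}.ncard : ℕ) : ℝ) ≤ (S.ncard : ℝ) := by
    exact_mod_cast Set.ncard_le_ncard h0 hS
  exact h1.trans (le_mul_of_one_le_right (by positivity) (Real.one_le_rpow hX (by linarith)))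

end Pool.Agent.X286.Win
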